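import Pool.Agent.Lib.lead.CXGraphRed

set_option autoImplicit false

namespace Pool.Agent.Results.MP_65ccf5_lc.Full

open Pool.Agent.Lib.CX

/-- Strongly 2-divisible graphs: every induced subgraph has a 2-clique-colouring. -/
def SDiv {V : Type} (G : SimpleGraph V) : Prop :=
  ∀ S : Set V, ∃ c : S → Fin 2, ∀ Q : Set S, Maximal (G.induce S).IsClique Q → Q.Nontrivial →
    ∀ i, ¬ Q ⊆ {v | c v = i}

def SD {V : Type} (P : V → Prop) (R : V → V → Prop) : Prop :=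
  ∀ S : V → Prop, (∀ a, S a → P a) → ∃ c : V → Bool, ∀ Q : V → Prop, (∀ a, Q a → S a) →
    (∀ a b, Q a → Q b → a ≠ b → R a b) → (∀ v, S v → (∀ a, Q a → a ≠ v → R a v) → Q v) →
    ∀ a b, Q a → Q b → a ≠ b → ∃ a b, Q a ∧ Q b ∧ c a ≠ c b

lemma maxc {V : Type} (G : SimpleGraph V) (Q : Set V) : Maximal G.IsClique Q ↔
    (∀ a b, a ∈ Q → b ∈ Q → a ≠ b → G.Adj a b) ∧ ∀ v, (∀ a, a ∈ Q → a ≠ v → G.Adj a v) → v ∈ Q := by
  refine ⟨fun h => ⟨fun a b h1 h2 h3 => h.1 h1 h2 h3, fun v hv => h.2 (h.1.insert fun b h1 h2 =>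
    (hv b h1 h2.symm).symm) (Set.subset_insert v Q) (Set.mem_insert v Q)⟩,
    fun h => ⟨fun a h1 b h2 h3 => h.1 a b h1 h2 h3, fun T hT hQ v hv =>
      h.2 v fun a h1 h2 => hT (hQ h1) hv h2⟩⟩

lemma sd_mk {V : Type} [DecidableEq V] (vs : List V) (es : List (V × V)) (R : V → V → Prop)
    (h : ∀ p ∈ vs, ∀ q ∈ vs, R p q ↔ p ≠ q ∧ ((p, q) ∈ es ∨ (q, p) ∈ es)) :
    SDiv (mkGr vs es).G ↔ SD (· ∈ vs) R := by
  classical
  let e := mkGrIso vs es
  have ha : ∀ a b, (mkGr vs es).G.Adj a b ↔ R (e a).1 (e b).1 := fun a b => by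
    rw [← e.map_rel_iff, h _ (e a).2 _ (e b).2]
    simp
  have inj : ∀ a b, (e a).1 = (e b).1 → a = b := fun a b h => e.injective (Subtype.ext h)
  simp only [SDiv, maxc, SimpleGraph.comap_adj, Function.Embedding.subtype_apply, ha]
  constructor
  · intro H S hS
    obtain ⟨c, hc⟩ := H {a | S (e a).1}
    let g : ∀ v, S v → {a | S (e a).1} := fun v h => ⟨e.symm ⟨v, hS v h⟩, by simpa using h⟩
    have hg : ∀ v h, (e (g v h).1).1 = v := fun v h => by simp [g]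
    have gg : ∀ (a : {a | S (e a).1}), g (e a.1).1 a.2 = a := fun a =>
      Subtype.ext (inj _ _ (hg _ a.2))
    refine ⟨fun v => if h : S v then decide (c (g v h) = 0) else false, fun Q q1 q2 q3 a b qa qb ab => ?_⟩
    by_contra h1
    push Not at h1
    refine hc {x | Q (e x.1).1} ⟨fun x y h2 h3 h4 => q2 _ _ h2 h3 fun h5 =>
      h4 (Subtype.ext (inj _ _ h5)), fun v hv => q3 _ v.2 fun x h2 h3 => ?_⟩
      ⟨g a (q1 a qa), by simpa [hg] using qa, g b (q1 b qb), by simpa [hg] using qb, fun h2 => ab ?_⟩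
      (c (g a (q1 a qa))) fun x hx => ?_
    · simpa only [hg] using hv (g x (q1 x h2)) (by simpa [hg] using h2) fun h4 =>
        h3 (by rw [← h4, hg x (q1 x h2)])
    · rw [← hg a (q1 a qa), h2, hg b (q1 b qb)]
    · have := h1 _ a hx qa
      rw [dif_pos (show S _ from x.2), dif_pos (q1 a qa), gg] at this
      revert this
      simp only [Set.mem_ofPred]
      generalize c x = i, c (g a (q1 a qa)) = j
      revert i j
      decide
  · intro H S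
    obtain ⟨c, hc⟩ := H (fun p => ∃ a ∈ S, (e a).1 = p) (by rintro _ ⟨a, -, rfl⟩; exact (e a).2)
    refine ⟨fun x => if c (e x.1).1 then 0 else 1, ?_⟩
    rintro Q ⟨q1, q2⟩ ⟨a, qa, b, qb, ab⟩ i hi
    obtain ⟨_, _, ⟨x, hx, rfl⟩, ⟨y, hy, rfl⟩, h1⟩ := hc (fun p => ∃ a ∈ Q, (e a.1).1 = p)
      (by rintro _ ⟨a, -, rfl⟩; exact ⟨_, a.2, rfl⟩)
      (by rintro _ _ ⟨a, h1, rfl⟩ ⟨b, h2, rfl⟩ h3; exact q1 a b h1 h2 fun h4 => h3 (h4 ▸ rfl))
      (by
        rintro _ ⟨v, hv, rfl⟩ h1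
        exact ⟨⟨v, hv⟩, q2 _ fun a h2 h3 => h1 _ ⟨a, h2, rfl⟩ fun h4 =>
          h3 (Subtype.ext (inj _ _ h4)), rfl⟩)
      _ _ ⟨a, qa, rfl⟩ ⟨b, qb, rfl⟩ fun h1 => ab (Subtype.ext (inj _ _ h1))
    have h2 := (hi hx).trans (hi hy).symm
    beta_reduce at h2
    revert h1 h2
    cases c (e x.1).1 <;> cases c (e y.1).1 <;> simp

abbrev L := ℕ × ℕ × Bool
abbrev W := ℕ × L × L
abbrev F := List (Cl3 ℕ)

def lits (C : Cl3 ℕ) : List (ℕ × Bool) := [C.1, C.2.1, C.2.2]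
def cmp (k p : L) : Prop := k.2.1 = p.2.1 ∧ k.2.2 ≠ p.2.2
def kill (k p q : L) : Prop := cmp k p ∨ cmp k q
def nx (M : ℕ) (p q : L) : Prop := q.1 = p.1 + 1 ∨ (p.1 + 1 = M ∧ q.1 = 0)
def rel (u v : W) : Prop :=
  (u.1 = 0 ∧ v.1 = 0) ∨ (u.1 = 0 ∧ v.1 = 1 ∧ (u.2.1 = v.2.1 ∨ kill u.2.1 v.2.1 v.2.2)) ∨
  (u.1 = 0 ∧ v.1 = 2 ∧ (u.2.1 = v.2.2 ∨ kill u.2.1 v.2.1 v.2.2)) ∨ (u.1 = 1 ∧ v.1 = 2 ∧ u.2 = v.2)
def R (u v : W) : Prop := u ≠ v ∧ (rel u v ∨ rel v u)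

instance (M : ℕ) (p q : L) : Decidable (nx M p q) := by unfold nx; infer_instance
instance (u v : W) : Decidable (rel u v) := by unfold rel kill cmp; infer_instance

def av (φ : F) : List L :=
  (List.range φ.length).flatMap fun j => ((φ.map lits).getD j []).map fun l => (j, l)
def ed (φ : F) : List (L × L) := (av φ ×ˢ av φ).filter fun e => nx φ.length e.1 e.2
def vs (φ : F) : List W := (av φ).map (fun p => (0, p, p)) ++ [1, 2] ×ˢ ed φ
def es (φ : F) : List (W × W) := (vs φ ×ˢ vs φ).filter fun e => rel e.1 e.2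

variable {φ : F}

lemma mem_av {p : L} : p ∈ av φ ↔ ∃ h : p.1 < φ.length, p.2 ∈ lits φ[p.1] := by
  obtain ⟨j, l⟩ := p
  simp only [av, List.mem_flatMap, List.mem_range, List.mem_map, Prod.mk.injEq]
  exact ⟨by rintro ⟨_, h, _, h1, rfl, rfl⟩; exact ⟨h, by simpa [h] using h1⟩,
    fun ⟨h, h1⟩ => ⟨j, h, l, by simpa [h] using h1, rfl, rfl⟩⟩

lemma mem_vs {t : ℕ} {p q : L} : (t, p, q) ∈ vs φ ↔ (t = 0 ∧ p ∈ av φ ∧ q = p) ∨
    ((t = 1 ∨ t = 2) ∧ (p ∈ av φ ∧ q ∈ av φ) ∧ nx φ.length p q) := by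
  simp only [vs, ed, List.mem_append, List.mem_map, List.mem_product, List.mem_filter,
    List.mem_cons, List.not_mem_nil, or_false, decide_eq_true_eq, Prod.mk.injEq]
  exact or_congr_left ⟨by rintro ⟨_, h, rfl, rfl, rfl⟩; exact ⟨rfl, h, rfl⟩,
    by rintro ⟨rfl, h, rfl⟩; exact ⟨_, h, rfl, rfl, rfl⟩⟩

lemma R.symm {u v : W} (h : R u v) : R v u := ⟨h.1.symm, h.2.symm⟩
lemma R00 {a b c d : L} : R (0, a, b) (0, c, d) ↔ (a, b) ≠ (c, d) := by simp [R, rel]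
lemma R01 {a b p q : L} : R (0, a, b) (1, p, q) ↔ a = p ∨ kill a p q := by simp [R, rel]
lemma R02 {a b p q : L} : R (0, a, b) (2, p, q) ↔ a = q ∨ kill a p q := by simp [R, rel]
lemma R12 {a b p q : L} : R (1, a, b) (2, p, q) ↔ a = p ∧ b = q := by simp [R, rel]
lemma R11 {a b p q : L} : ¬ R (1, a, b) (1, p, q) := by simp [R, rel]
lemma R22 {a b p q : L} : ¬ R (2, a, b) (2, p, q) := by simp [R, rel]

lemma ok_iff {v : ℕ → Bool} {C : Cl3 ℕ} : C.ok v ↔ ∃ l ∈ lits C, v l.1 = l.2 := by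
  simp [Cl3.ok, lits]

lemma edge_ne {S : W → Prop} {c : W → Bool} (hc : ∀ Q : W → Prop, (∀ a, Q a → S a) →
    (∀ a b, Q a → Q b → a ≠ b → R a b) → (∀ v, S v → (∀ a, Q a → a ≠ v → R a v) → Q v) →
    ∀ a b, Q a → Q b → a ≠ b → ∃ a b, Q a ∧ Q b ∧ c a ≠ c b) (u w : W) (h1 : S u) (h2 : S w)
    (h4 : R u w) (h5 : ∀ z, S z → R u z → ¬ R w z) : c u ≠ c w := by
  intro e
  obtain ⟨a, b, h6, h7, h8⟩ := hc (fun z => z = u ∨ z = w) (by rintro _ (rfl | rfl) <;> assumption)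
    (by rintro _ _ (rfl | rfl) (rfl | rfl) h <;> first | exact absurd rfl h | exact h4 | exact h4.symm)
    (fun z h6 h7 => by_contra fun h8 => h5 z h6 (h7 u (.inl rfl) fun e => h8 (.inl e.symm))
      (h7 w (.inr rfl) fun e => h8 (.inr e.symm))) u w (.inl rfl) (.inr rfl) h4.1
  rcases h6 with rfl | rfl <;> rcases h7 with rfl | rfl
  exacts [h8 rfl, h8 e, h8 e.symm, h8 rfl]

lemma sat_not (hM : φ.length % 2 = 1) (h3 : 3 ≤ φ.length) (h : Sat3 φ) : ¬ SD (· ∈ vs φ) R := by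
  obtain ⟨v, h⟩ := h
  have : ∀ j, ∃ l : ℕ × Bool, v l.1 = l.2 ∧ (j < φ.length → (j, l) ∈ av φ) := fun j => by
    by_cases hj : j < φ.length
    · obtain ⟨l, h1, h2⟩ := ok_iff.1 (h _ (List.getElem_mem hj))
      exact ⟨l, h2, fun _ => mem_av.2 ⟨hj, h1⟩⟩
    · exact ⟨(0, v 0), rfl, fun h1 => absurd h1 hj⟩
  choose l l1 l2 using this
  have nk : ∀ a b c, ¬ kill (a, l a) (b, l b) (c, l c) := fun a b c => by
    rintro (⟨h1, h2⟩ | ⟨h1, h2⟩) <;> exact h2 (by simp only [← l1] at h1 ⊢; rw [h1])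
  obtain ⟨n, hn⟩ : ∃ n : ℕ → ℕ, ∀ j < φ.length, n j < φ.length ∧ n j ≠ j ∧
      (n j = j + 1 ∨ (j + 1 = φ.length ∧ n j = 0)) :=
    ⟨fun j => if j + 1 = φ.length then 0 else j + 1, fun j hj => by
      beta_reduce
      split_ifs <;> omega⟩
  intro H
  obtain ⟨c, hc⟩ := H (fun u => ∃ j < φ.length, u = (0, (j, l j), (j, l j)) ∨
      u = (1, (j, l j), (n j, l (n j))) ∨ u = (2, (j, l j), (n j, l (n j)))) (by
    rintro _ ⟨j, hj, rfl | rfl | rfl⟩ <;> rw [mem_vs]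
    exacts [.inl ⟨rfl, l2 j hj, rfl⟩, .inr ⟨.inl rfl, ⟨l2 j hj, l2 _ (hn j hj).1⟩, (hn j hj).2.2⟩,
      .inr ⟨.inr rfl, ⟨l2 j hj, l2 _ (hn j hj).1⟩, (hn j hj).2.2⟩])
  have edge := edge_ne hc
  have step : ∀ j < φ.length, c (0, (j, l j), (j, l j)) ≠ c (0, (n j, l (n j)), (n j, l (n j))) := by
    intro j hj
    obtain ⟨n1, n2, -⟩ := hn j hj
    have e1 := edge _ _ ⟨j, hj, .inl rfl⟩ ⟨j, hj, .inr (.inl rfl)⟩ (R01.2 (.inl rfl)) (by
      rintro _ ⟨i, -, rfl | rfl | rfl⟩ h1 h2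
      · rcases R01.1 h2.symm with h2 | h2
        exacts [h1.1 (by rw [h2]), nk _ _ _ h2]
      · exact R11 h2
      · obtain ⟨-, h2⟩ := R12.1 h2
        rcases R02.1 h1 with h1 | h1
        exacts [n2 (congrArg Prod.fst (h2.trans h1.symm)), nk _ _ _ h1])
    have e2 := edge _ _ ⟨j, hj, .inr (.inl rfl)⟩ ⟨j, hj, .inr (.inr rfl)⟩ (R12.2 ⟨rfl, rfl⟩) (by
      rintro _ ⟨i, -, rfl | rfl | rfl⟩ h1 h2
      · exact n2 (congrArg Prod.fst (((R02.1 h2.symm).resolve_right (nk _ _ _)).symm.trans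
          ((R01.1 h1.symm).resolve_right (nk _ _ _))))
      · exact R11 h1
      · exact R22 h2)
    have e3 := edge _ _ ⟨_, n1, .inl rfl⟩ ⟨j, hj, .inr (.inr rfl)⟩ (R02.2 (.inl rfl)) (by
      rintro _ ⟨i, -, rfl | rfl | rfl⟩ h1 h2
      · rcases R02.1 h2.symm with h2 | h2
        exacts [h1.1 (by rw [h2]), nk _ _ _ h2]
      · obtain ⟨h2, -⟩ := R12.1 h2.symm
        rcases R01.1 h1 with h1 | h1
        exacts [n2 (congrArg Prod.fst (h1.trans h2)), nk _ _ _ h1]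
      · exact R22 h2)
    exact (by decide : ∀ a b d e : Bool, a ≠ b → b ≠ d → e ≠ d → a ≠ e) _ _ _ _ e1 e2 e3
  have par : ∀ j < φ.length, (c (0, (j, l j), (j, l j)) = c (0, (0, l 0), (0, l 0)) ↔ j % 2 = 0) := by
    intro j
    induction j with
    | zero => simp
    | succ j ih =>
      intro hj
      have h1 := step j (by omega)
      rw [show n j = j + 1 by have := hn j (by omega); omega] at h1
      rw [show (j + 1) % 2 = 0 ↔ ¬ j % 2 = 0 by omega, ← ih (by omega)]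
      exact (by decide : ∀ a b d : Bool, a ≠ b → (b = d ↔ ¬ a = d)) _ _ _ h1
  have h1 := step (φ.length - 1) (by omega)
  rw [show n (φ.length - 1) = 0 by have := hn (φ.length - 1) (by omega); omega] at h1
  exact h1 ((par _ (by omega)).2 (by omega))

lemma unsat_sd (hM : φ.length % 2 = 1) (h : ¬ Sat3 φ) : SD (· ∈ vs φ) R := by
  classical
  intro S hS
  obtain ⟨i, hi, dead⟩ : ∃ i < φ.length, ∀ p : L, S (0, p, p) → p.1 = i → ∃ k, S (0, k, k) ∧ cmp k p := by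
    by_contra h1
    push Not at h1
    refine h ⟨fun x => decide (∃ j, S (0, (j, x, true), (j, x, true))), fun C hC => ok_iff.2 ?_⟩
    obtain ⟨j, hj, rfl⟩ := List.getElem_of_mem hC
    obtain ⟨⟨_, x, b⟩, h2, rfl, h3⟩ := h1 j hj
    have h4 : _ ∈ av φ := ((mem_vs.1 (hS _ h2)).resolve_right (by simp)).2.1
    refine ⟨(x, b), (mem_av.1 h4).2, ?_⟩
    cases b
    · simpa using fun j h5 => h3 (j, x, true) h5 ⟨rfl, by simp⟩
    · simpa using ⟨_, h2⟩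
  obtain ⟨c, c1, c2⟩ : ∃ c : L → Bool, (∀ p q, nx φ.length p q → S (0, p, p) → S (0, q, q) →
      (¬ ∃ k, S (0, k, k) ∧ kill k p q) → c p ≠ c q) ∧ ∀ a b, S (0, a, a) → S (0, b, b) → a ≠ b →
        ∃ a b, S (0, a, a) ∧ S (0, b, b) ∧ c a ≠ c b := by
    by_cases h1 : ∃ p q, nx φ.length p q ∧ S (0, p, p) ∧ S (0, q, q) ∧ ¬ ∃ k, S (0, k, k) ∧ kill k p q
    · have : ∀ p q, nx φ.length p q → S (0, p, p) → S (0, q, q) → (¬ ∃ k, S (0, k, k) ∧ kill k p q) →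
          decide (p.1 % 2 = 0 ↔ p.1 < i) ≠ decide (q.1 % 2 = 0 ↔ q.1 < i) := by
        intro p q a1 a2 a3 a4
        have b1 : p.1 ≠ i := fun e => let ⟨k, h2, h3⟩ := dead p a2 e; a4 ⟨k, h2, .inl h3⟩
        have b2 : q.1 ≠ i := fun e => let ⟨k, h2, h3⟩ := dead q a3 e; a4 ⟨k, h2, .inr h3⟩
        rw [Ne, decide_eq_decide]
        unfold nx at a1
        omega
      obtain ⟨p, q, h1⟩ := h1
      exact ⟨_, this, fun _ _ _ _ _ => ⟨p, q, h1.2.1, h1.2.2.1, this p q h1.1 h1.2.1 h1.2.2.1 h1.2.2.2⟩⟩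
    · by_cases h2 : ∃ a, S (0, a, a)
      · obtain ⟨a, ha⟩ := h2
        refine ⟨fun x => decide (x = a), fun p q a1 a2 a3 a4 => absurd ⟨p, q, a1, a2, a3, a4⟩ h1,
          fun x y hx hy xy => ?_⟩
        by_cases h3 : x = a
        · exact ⟨x, y, hx, hy, by simpa [h3] using fun e => xy (h3.trans e.symm)⟩
        · exact ⟨x, a, hx, ha, by simpa using h3⟩
      · exact ⟨fun _ => true, fun p _ _ a => absurd ⟨p, a⟩ h2, fun p _ a => absurd ⟨p, a⟩ h2⟩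
  let x : L → L → Bool := fun p q => if S (0, p, p) then !c p else c q
  refine ⟨fun u => if u.1 = 0 then c u.2.1 else
    if h : ∃ k, S (0, k, k) ∧ kill k u.2.1 u.2.2 then !c h.choose else
    if u.1 = 1 then x u.2.1 u.2.2 else !x u.2.1 u.2.2, fun Q q1 q2 q3 a b qa qb ab => ?_⟩
  have sh : ∀ u, Q u → (∃ p, u = (0, p, p)) ∨ ∃ p q, nx φ.length p q ∧
      (u = (1, p, q) ∨ u = (2, p, q)) := by
    rintro ⟨t, p, q⟩ hu
    rcases mem_vs.1 (hS _ (q1 _ hu)) with ⟨rfl, -, rfl⟩ | ⟨rfl | rfl, -, h1⟩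
    exacts [.inl ⟨_, rfl⟩, .inr ⟨p, q, h1, .inl rfl⟩, .inr ⟨p, q, h1, .inr rfl⟩]
  by_cases hQ : ∃ p q, nx φ.length p q ∧ (Q (1, p, q) ∨ Q (2, p, q))
  · obtain ⟨p, q, h1, h2⟩ := hQ
    have tw : ∀ w, Q w → (∃ r, w = (0, r, r)) ∨ w = (1, p, q) ∨ w = (2, p, q) := fun w hw => by
      refine (sh w hw).imp_right ?_
      rintro ⟨p', q', -, rfl | rfl⟩ <;> rcases h2 with h2 | h2
      · exact .inl (by_contra fun e => R11 (q2 _ _ hw h2 e))
      · obtain ⟨rfl, rfl⟩ := R12.1 (q2 _ _ hw h2 (by simp))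
        exact .inl rfl
      · obtain ⟨rfl, rfl⟩ := R12.1 (q2 _ _ h2 hw (by simp))
        exact .inr rfl
      · exact .inr (by_contra fun e => R22 (q2 _ _ hw h2 e))
    by_cases hk : ∃ k, S (0, k, k) ∧ kill k p q
    · have h3 := q3 _ hk.choose_spec.1 fun w hw ne => by
        rcases tw w hw with ⟨r, rfl⟩ | rfl | rfl
        exacts [R00.2 fun e => ne (by rw [e]), (R01.2 (.inr hk.choose_spec.2)).symm,
          (R02.2 (.inr hk.choose_spec.2)).symm]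
      rcases h2 with h2 | h2 <;> exact ⟨_, _, h2, h3, by simp [hk]⟩
    · by_cases h3 : Q (1, p, q) ∧ Q (2, p, q)
      · exact ⟨_, _, h3.1, h3.2, by simp [hk]⟩
      · obtain ⟨r, hr⟩ : ∃ r, Q (0, r, r) := by
          rcases tw a qa with ⟨r, rfl⟩ | rfl | rfl
          · exact ⟨r, qa⟩
          all_goals rcases tw b qb with ⟨r, rfl⟩ | rfl | rfl
          exacts [⟨r, qb⟩, absurd rfl ab, absurd ⟨qa, qb⟩ h3, ⟨r, qb⟩, absurd ⟨qb, qa⟩ h3, absurd rfl ab]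
        have s := q1 _ hr
        rcases h2 with h2 | h2 <;> refine ⟨_, _, h2, hr, ?_⟩
        · obtain rfl := (R01.1 (q2 _ _ hr h2 (by simp))).resolve_right fun e => hk ⟨r, s, e⟩
          simp [hk, x, s]
        · obtain rfl := (R02.1 (q2 _ _ hr h2 (by simp))).resolve_right fun e => hk ⟨r, s, e⟩
          by_cases h4 : S (0, p, p)
          · simpa [hk, x, h4] using c1 p r h1 h4 s hk
          · simp [hk, x, h4]
  · have z : ∀ u, Q u → ∃ p, u = (0, p, p) := fun u hu => (sh u hu).resolve_right (by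
      rintro ⟨p, q, h1, rfl | rfl⟩
      exacts [hQ ⟨p, q, h1, .inl hu⟩, hQ ⟨p, q, h1, .inr hu⟩])
    obtain ⟨p, rfl⟩ := z a qa
    obtain ⟨q, rfl⟩ := z b qb
    obtain ⟨r, s, h1, h2, h3⟩ := c2 p q (q1 _ qa) (q1 _ qb) fun e => ab (by rw [e])
    have m : ∀ r, S (0, r, r) → Q (0, r, r) := fun r hr => q3 _ hr fun w hw ne => by
      obtain ⟨t, rfl⟩ := z w hw
      exact R00.2 fun e => ne (by rw [e])
    exact ⟨_, _, m r h1, m s h2, by simpa using h3⟩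

def tv : Cl3 ℕ := ((0, true), (0, false), (0, true))
def pad (φ : F) : F := tv :: tv :: tv :: (φ ++ φ)

set_option synthInstance.maxSize 4000 in
theorem result : NPHard fun a : Gr => ¬ SDiv a.G := by
  refine NPHard.of_sat3 (fun φ => mkGr (vs (pad φ)) (es (pad φ))) ?_ fun φ _ => ?_
  · have h0 : PT av := by unfold av lits; fun_prop
    have h1 : PT vs := by unfold vs ed nx; fun_prop
    have h2 : PT es := by unfold es rel kill cmp; fun_prop
    have h3 : PT pad := by unfold pad; fun_prop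
    fun_prop
  · rw [sd_mk _ _ R fun p hp q hq => by simp [R, es, hp, hq]]
    have h1 : (pad φ).length = 2 * φ.length + 3 := by simp [pad]; omega
    have hs : Sat3 φ ↔ Sat3 (pad φ) := exists_congr fun v => by
      have : tv.ok v := by cases h : v 0 <;> simp [Cl3.ok, tv, h]
      simp [pad, this, or_imp, forall_and]
    rw [hs]
    exact ⟨sat_not (by omega) (by omega), fun h2 => by_contra fun h3 => h2 (unsat_sd (by omega) h3)⟩

end Pool.Agent.Results.MP_65ccf5_lc.Full
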